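import Pool.Agent.H142Z.Nice8

set_option autoImplicit false

namespace Pool.Agent.Results.MP_e00215_an.Coincide

open Pool.Agent.H142Z.Nice

universe u

/-- Every set of ergodic nice recurrence is a set of nice recurrence. The hypothesis is only
needed for ergodic systems on spaces in `Type`; the conclusion holds in every universe. -/
theorem result (R : Set ℕ) (h : ErgodicNiceRecurrence.{0} R) : NiceRecurrence.{u} R :=
  main R h

end Pool.Agent.Results.MP_e00215_an.Coincide
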